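import Mathlib

/-!
# Wiener index minus total eccentricity

For connected graphs `G` of order `n` and radius at least four,
`W(G) - ε(G) ≤ ⌊n³/6 - 3n²/4 + n/3 + 1/4⌋`, with equality exactly for paths.

Part A: deleting an edge which is not a bridge increases `W - ε` (if the radius is at least four).
Part B: trees, by adding the vertices one by one to a longest path.
-/

set_option linter.unusedSectionVars false

namespace Pool.Agent.Results.MP_4bd310_co.WienerMinusEccentricity

open Finset

/-! ## Part A, abstract version -/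

section abstract

variable {V : Type*} [Fintype V] [DecidableEq V]

/-- Eccentricity with respect to a distance function. -/
def eccOf (d : V → V → ℕ) (v : V) : ℕ := univ.sup (fun u => d v u)

theorem le_ecc (d : V → V → ℕ) (v u : V) : d v u ≤ eccOf d v :=
  le_sup (f := fun u => d v u) (mem_univ u)

theorem exists_ecc (d : V → V → ℕ) (v : V) : ∃ u, d v u = eccOf d v := by
  obtain ⟨u, _, hu⟩ := exists_mem_eq_sup univ ⟨v, mem_univ v⟩ (fun u => d v u)
  exact ⟨u, hu.symm⟩

structure Setup (a b : V → V → ℕ) (x y : V) : Prop where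
  a0 : ∀ v, a v v = 0
  asymm : ∀ u v, a u v = a v u
  atri : ∀ u v w, a u w ≤ a u v + a v w
  b0 : ∀ v, b v v = 0
  bsymm : ∀ u v, b u v = b v u
  btri : ∀ u v w, b u w ≤ b u v + b v w
  ab : ∀ u v, a u v ≤ b u v
  axy : a x y = 1
  bxy : 2 ≤ b x y
  key : ∀ u v, b u v ≤ a u v ∨ b u x + 1 + b y v ≤ a u v ∨ b u y + 1 + b x v ≤ a u v
  geo : ∀ u v i, i ≤ b u v → ∃ p, b u p = i ∧ b p v + i = b u v
  rad : ∀ v, 4 ≤ eccOf a v

variable {a b : V → V → ℕ} {x y : V}

theorem Setup.swap (h : Setup a b x y) : Setup a b y x where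
  a0 := h.a0
  asymm := h.asymm
  atri := h.atri
  b0 := h.b0
  bsymm := h.bsymm
  btri := h.btri
  ab := h.ab
  axy := by rw [h.asymm, h.axy]
  bxy := by rw [h.bsymm]; exact h.bxy
  key := fun u v => by
    rcases h.key u v with h | h | h
    · exact Or.inl h
    · exact Or.inr (Or.inr h)
    · exact Or.inr (Or.inl h)
  geo := h.geo
  rad := h.rad

/-- Increase of the eccentricity. -/
def kk (a b : V → V → ℕ) (v : V) : ℕ := eccOf b v - eccOf a v

/-- Sum of the increases of the distances from `v`. -/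
def RR (a b : V → V → ℕ) (v : V) : ℕ := ∑ w, (b v w - a v w)

/-- The bad vertices on the side of `x`. -/
def Bad (a b : V → V → ℕ) (x y : V) : Finset V :=
  univ.filter (fun v => 1 ≤ kk a b v ∧ a v x + 1 = a v y ∧ eccOf a v = a v y)

theorem RR_ge (v : V) (s : Finset V) : ∑ w ∈ s, (b v w - a v w) ≤ RR a b v :=
  sum_le_sum_of_subset (subset_univ s)

theorem RR_ge_two (v : V) {p q : V} (hpq : p ≠ q) :
    (b v p - a v p) + (b v q - a v q) ≤ RR a b v := by
  have := RR_ge (a := a) (b := b) v {p, q}
  rwa [sum_pair hpq] at this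

/-- Type X analysis. -/
theorem Setup.typeX (h : Setup a b x y) {v u : V} (hX : b v x + 1 + b y u ≤ a v u) :
    a v y = a v x + 1 ∧ b v u - a v u ≤ b v y - a v y := by
  have h1 := h.ab v x
  have h2 := h.ab y u
  have h3 := h.atri v x y
  have h4 := h.atri v y u
  have h5 := h.btri v y u
  have h6 := h.axy
  have h7 := h.ab v y
  omega

theorem Setup.not_key (h : Setup a b x y) {v : V} (hv : 1 ≤ kk a b v) :
    ∃ u, b v u = eccOf b v ∧ eccOf a v < b v u ∧ a v u ≤ eccOf a v ∧
      (b v x + 1 + b y u ≤ a v u ∨ b v y + 1 + b x u ≤ a v u) := by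
  obtain ⟨u, hu⟩ := exists_ecc b v
  have h1 := le_ecc a v u
  unfold kk at hv
  refine ⟨u, hu, by omega, h1, ?_⟩
  rcases h.key v u with h | h | h
  · omega
  · exact Or.inl h
  · exact Or.inr h

theorem Setup.vertexX (h : Setup a b x y) {v u : V} (hv : 1 ≤ kk a b v)
    (hu : b v u = eccOf b v) (hX : b v x + 1 + b y u ≤ a v u) :
    kk a b v ≤ b v y - a v y ∧
    2 * kk a b v ≤ RR a b v + (if v ∈ Bad a b x y then 1 else 0) := by
  obtain ⟨h1, h2⟩ := h.typeX hX
  have h3 := le_ecc a v u
  have h3y := le_ecc a v y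
  have h4 : kk a b v ≤ b v u - a v u := by
    unfold kk
    omega
  refine ⟨h4.trans h2, ?_⟩
  by_cases huy : u = y
  · subst huy
    have h5 : 1 ≤ b v u := by unfold kk at h4 hv; omega
    obtain ⟨p, hp1, hp2⟩ := h.geo v u (b v u - 1) (by omega)
    have hpu : p ≠ u := by
      rintro rfl
      omega
    have h6 := RR_ge_two (a := a) (b := b) v hpu
    have h7 := le_ecc a v p
    split_ifs with hB
    · unfold kk at *
      omega
    · have h8 : ¬ (1 ≤ kk a b v ∧ a v x + 1 = a v u ∧ eccOf a v = a v u) := by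
        intro hh
        exact hB (by simpa [Bad] using hh)
      unfold kk at *
      omega
  · have h6 := RR_ge_two (a := a) (b := b) v huy
    omega

theorem Setup.vertex (h : Setup a b x y) (v : V) :
    2 * kk a b v ≤ RR a b v + (if v ∈ Bad a b x y then 1 else 0) +
      (if v ∈ Bad a b y x then 1 else 0) := by
  rcases Nat.eq_zero_or_pos (kk a b v) with h0 | h0
  · omega
  · obtain ⟨u, hu, _, _, hX | hY⟩ := h.not_key h0
    · have := (h.vertexX h0 hu hX).2
      omega
    · have := (h.swap.vertexX h0 hu hY).2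
      omega

theorem Setup.bad_inc (h : Setup a b x y) {v : V} (hv : v ∈ Bad a b x y) :
    1 ≤ b y v - a y v := by
  simp only [Bad, mem_filter, mem_univ, true_and] at hv
  obtain ⟨h0, h1, h2⟩ := hv
  obtain ⟨u, hu, _, _, hX | hY⟩ := h.not_key h0
  · have := (h.vertexX h0 hu hX).1
    rw [h.bsymm y v, h.asymm y v]
    omega
  · have := (h.swap.typeX hY).1
    omega

theorem Setup.not_bad (h : Setup a b x y) {v : V} (hv : a x v ≤ 2) : v ∉ Bad a b x y := by
  simp only [Bad, mem_filter, mem_univ, true_and]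
  rintro ⟨_, h1, h2⟩
  have h3 := h.rad v
  have h4 := h.atri v x y
  have h5 := h.axy
  rw [h.asymm x v] at hv
  omega

theorem Setup.endpoint_aux (h : Setup a b x y) (s : Finset V) (hs : ∀ v ∈ s, a x v ≤ 2) :
    #(Bad a b x y) + ∑ w ∈ s, (b y w - a y w) ≤ RR a b y := by
  have h1 : Disjoint (Bad a b x y) s := by
    rw [disjoint_left]
    intro v hv hvs
    exact h.not_bad (hs v hvs) hv
  have h2 := RR_ge (a := a) (b := b) y (Bad a b x y ∪ s)
  rw [sum_union h1] at h2
  have h3 : ∑ w ∈ Bad a b x y, 1 ≤ ∑ w ∈ Bad a b x y, (b y w - a y w) :=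
    sum_le_sum (fun w hw => h.bad_inc hw)
  rw [sum_const, smul_eq_mul, mul_one] at h3
  omega

theorem Setup.endpoint (h : Setup a b x y) :
    2 * kk a b y + #(Bad a b x y) + 1 ≤ RR a b y := by
  have hax : a x x = 0 := h.a0 x
  have hyx : a y x = 1 := by rw [h.asymm, h.axy]
  have hbyx : b y x = b x y := h.bsymm y x
  have hbxy := h.bxy
  rcases Nat.eq_zero_or_pos (kk a b y) with h0 | h0
  · have h1 := h.endpoint_aux {x} (by intro v hv; rw [mem_singleton] at hv; subst hv; omega)
    rw [sum_singleton] at h1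
    omega
  · obtain ⟨u, hu, h1, h2, hX | hY⟩ := h.not_key h0
    · have := h.ab y u
      omega
    · rw [h.b0 y] at hY
      have hrad := h.rad y
      by_cases hb : 2 ≤ b x u
      · obtain ⟨p, hp1, hp2⟩ := h.geo x u 1 (by omega)
        obtain ⟨q, hq1, hq2⟩ := h.geo x u 2 (by omega)
        have hxp : x ≠ p := by rintro rfl; rw [h.b0] at hp1; omega
        have hxq : x ≠ q := by rintro rfl; rw [h.b0] at hq1; omega
        have hpq : p ≠ q := by rintro rfl; omega
        have h3 := h.endpoint_aux {x, p, q} (by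
          intro v hv
          simp only [mem_insert, mem_singleton] at hv
          have := h.ab x v
          rcases hv with rfl | rfl | rfl <;> omega)
        rw [sum_insert (by simp [hxp, hxq]), sum_pair hpq] at h3
        have e1 := h.btri y x u
        have e2 := h.btri y p u
        have e3 := h.btri y q u
        have e4 := h.atri y x p
        have e5 := h.atri y x q
        have e6 := h.ab x p
        have e7 := h.ab x q
        unfold kk at *
        omega
      · have e1 := h.btri y x u
        obtain ⟨p, hp1, hp2⟩ := h.geo x y 1 (by omega)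
        have hxp : x ≠ p := by rintro rfl; rw [h.b0] at hp1; omega
        have h3 := h.endpoint_aux {x, p} (by
          intro v hv
          simp only [mem_insert, mem_singleton] at hv
          have := h.ab x v
          rcases hv with rfl | rfl <;> omega)
        rw [sum_pair hxp] at h3
        have e2 := h.bsymm p y
        have e4 := h.atri y x p
        have e6 := h.ab x p
        unfold kk at *
        omega

theorem Setup.main (h : Setup a b x y) :
    ∑ v, ∑ w, a v w + 2 * ∑ v, eccOf b v + 2 ≤ ∑ v, ∑ w, b v w + 2 * ∑ v, eccOf a v := by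
  have hxy : x ≠ y := by
    rintro rfl
    have := h.axy
    rw [h.a0] at this
    omega
  have h1 : ∀ v ∈ (univ : Finset V), 2 * kk a b v + (if v = x then #(Bad a b y x) + 1 else 0) +
      (if v = y then #(Bad a b x y) + 1 else 0) ≤
      RR a b v + (if v ∈ Bad a b x y then 1 else 0) + (if v ∈ Bad a b y x then 1 else 0) := by
    intro v _
    by_cases hvx : v = x
    · subst hvx
      have := h.swap.endpoint
      rw [if_pos rfl, if_neg hxy]
      omega
    · by_cases hvy : v = y
      · subst hvy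
        have := h.endpoint
        rw [if_neg hvx, if_pos rfl]
        omega
      · rw [if_neg hvx, if_neg hvy]
        have := h.vertex v
        omega
  have h2 := sum_le_sum h1
  simp only [sum_add_distrib, sum_ite_eq', mem_univ, if_true, sum_ite_mem, univ_inter,
    sum_const, smul_eq_mul, mul_one, ← mul_sum] at h2
  have h3 : ∑ v, RR a b v + ∑ v, ∑ w, a v w = ∑ v, ∑ w, b v w := by
    rw [← sum_add_distrib]
    apply sum_congr rfl
    intro v _
    unfold RR
    rw [← sum_add_distrib]
    apply sum_congr rfl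
    intro w _
    have := h.ab v w
    omega
  have h4 : ∑ v, kk a b v + ∑ v, eccOf a v = ∑ v, eccOf b v := by
    rw [← sum_add_distrib]
    apply sum_congr rfl
    intro v _
    unfold kk
    have : eccOf a v ≤ eccOf b v := by
      obtain ⟨u, hu⟩ := exists_ecc a v
      rw [← hu]
      exact (h.ab v u).trans (le_ecc b v u)
    omega
  omega

end abstract

/-! ## Part A for graphs -/

section graphA

variable {V : Type*} [Fintype V] [DecidableEq V] {G : SimpleGraph V}

theorem geo_exists (hG : G.Connected) (u v : V) (i : ℕ) (hi : i ≤ G.dist u v) :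
    ∃ p, G.dist u p = i ∧ G.dist p v + i = G.dist u v := by
  obtain ⟨w, hw⟩ := hG.exists_walk_length_eq_dist u v
  refine ⟨w.getVert i, ?_⟩
  have h1 := SimpleGraph.dist_le (w.take i)
  have h2 := SimpleGraph.dist_le (w.drop i)
  rw [SimpleGraph.Walk.take_length] at h1
  rw [SimpleGraph.Walk.drop_length] at h2
  have h3 := hG.dist_triangle (u := u) (v := w.getVert i) (w := v)
  omega

theorem key_walk {x y : V} (hH : (G.deleteEdges {s(x, y)}).Connected) {u v : V}
    (p : G.Walk u v) :
    (G.deleteEdges {s(x, y)}).dist u v ≤ p.length ∨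
    (G.deleteEdges {s(x, y)}).dist u x + 1 + (G.deleteEdges {s(x, y)}).dist y v ≤ p.length ∨
    (G.deleteEdges {s(x, y)}).dist u y + 1 + (G.deleteEdges {s(x, y)}).dist x v ≤ p.length := by
  induction p with
  | nil => left; simp
  | @cons u u' v hadj q ih =>
    rw [SimpleGraph.Walk.length_cons]
    by_cases he : s(u, u') = s(x, y)
    · rw [Sym2.eq_iff] at he
      rcases he with ⟨rfl, rfl⟩ | ⟨rfl, rfl⟩
      · have h1 : (G.deleteEdges {s(u, u')}).dist u u = 0 := SimpleGraph.dist_self
        have h2 : (G.deleteEdges {s(u, u')}).dist u' u' = 0 := SimpleGraph.dist_self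
        omega
      · have h1 : (G.deleteEdges {s(u', u)}).dist u u = 0 := SimpleGraph.dist_self
        have h2 : (G.deleteEdges {s(u', u)}).dist u' u' = 0 := SimpleGraph.dist_self
        omega
    · have hadj' : (G.deleteEdges {s(x, y)}).Adj u u' := by
        rw [SimpleGraph.deleteEdges_adj]
        exact ⟨hadj, by simpa using he⟩
      have h1 := SimpleGraph.dist_eq_one_iff_adj.2 hadj'
      have h2 := hH.dist_triangle (u := u) (v := u') (w := v)
      have h3 := hH.dist_triangle (u := u) (v := u') (w := x)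
      have h4 := hH.dist_triangle (u := u) (v := u') (w := y)
      omega

theorem setup (hG : G.Connected) {x y : V} (hxy : G.Adj x y)
    (hH : (G.deleteEdges {s(x, y)}).Connected) (hrad : ∀ v, 4 ≤ eccOf G.dist v) :
    Setup G.dist (G.deleteEdges {s(x, y)}).dist x y where
  a0 := fun v => SimpleGraph.dist_self
  asymm := fun u v => SimpleGraph.dist_comm
  atri := fun u v w => hG.dist_triangle
  b0 := fun v => SimpleGraph.dist_self
  bsymm := fun u v => SimpleGraph.dist_comm
  btri := fun u v w => hH.dist_triangle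
  ab := fun u v => (hH.preconnected u v).dist_anti (SimpleGraph.deleteEdges_le _)
  axy := SimpleGraph.dist_eq_one_iff_adj.2 hxy
  bxy := hH.one_lt_dist_of_ne_of_not_adj hxy.ne (by simp)
  key := fun u v => by
    obtain ⟨p, hp⟩ := hG.exists_walk_length_eq_dist u v
    rw [← hp]
    exact key_walk hH p
  geo := fun u v i hi => geo_exists hH u v i hi
  rad := hrad

/-- **Deleting an edge which is not a bridge strictly increases `W - ε`** (radius at least 4). -/
theorem deleteEdge (hG : G.Connected) {x y : V} (hxy : G.Adj x y)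
    (hH : (G.deleteEdges {s(x, y)}).Connected) (hrad : ∀ v, 4 ≤ eccOf G.dist v) :
    ∑ v, ∑ w, G.dist v w + 2 * ∑ v, eccOf (G.deleteEdges {s(x, y)}).dist v + 2 ≤
      ∑ v, ∑ w, (G.deleteEdges {s(x, y)}).dist v w + 2 * ∑ v, eccOf G.dist v :=
  (setup hG hxy hH hrad).main

end graphA

/-! ## The numbers -/

/-- `F n = W(P_n) - ε(P_n)`. -/
def F : ℕ → ℤ
  | 0 => 0
  | n + 1 => F n + ((n * (n + 1) / 2 : ℕ) : ℤ) - (((3 * n + 1) / 2 : ℕ) : ℤ)

theorem two_mul_half (n : ℕ) : 2 * (n * (n + 1) / 2) = n * (n + 1) :=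
  Nat.mul_div_cancel' (Nat.even_mul_succ_self n).two_dvd

theorem twelve_F (n : ℕ) :
    12 * F n = 2 * (n : ℤ) ^ 3 - 9 * (n : ℤ) ^ 2 + 4 * (n : ℤ) + 3 * ((n % 2 : ℕ) : ℤ) := by
  induction n with
  | zero => simp [F]
  | succ n ih =>
    have h1 := two_mul_half n
    have h1' : 2 * ((n * (n + 1) / 2 : ℕ) : ℤ) = n * (n + 1) := by exact_mod_cast h1
    have h2 : F (n + 1) = F n + ((n * (n + 1) / 2 : ℕ) : ℤ) - (((3 * n + 1) / 2 : ℕ) : ℤ) := rfl
    rcases Nat.even_or_odd' n with ⟨m, rfl | rfl⟩
    · have h3 : (3 * (2 * m) + 1) / 2 = 3 * m := by omega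
      have h4 : 2 * m % 2 = 0 := by omega
      have h5 : (2 * m + 1) % 2 = 1 := by omega
      rw [h3] at h2
      rw [h4] at ih
      rw [h5]
      push_cast at *
      linear_combination ih + 12 * h2 + 6 * h1'
    · have h3 : (3 * (2 * m + 1) + 1) / 2 = 3 * m + 2 := by omega
      have h4 : (2 * m + 1) % 2 = 1 := by omega
      have h5 : (2 * m + 1 + 1) % 2 = 0 := by omega
      rw [h3] at h2
      rw [h4] at ih
      rw [h5]
      push_cast at *
      linear_combination ih + 12 * h2 + 6 * h1'

theorem F_floor (n : ℕ) :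
    ⌊(n : ℚ) ^ 3 / 6 - 3 / 4 * (n : ℚ) ^ 2 + (n : ℚ) / 3 + 1 / 4⌋ = F n := by
  have h := twelve_F n
  have h3 : n % 2 = 0 ∨ n % 2 = 1 := by omega
  rw [Int.floor_eq_iff]
  rcases h3 with h3 | h3
  · rw [h3] at h
    have h2 := congrArg (Int.cast : ℤ → ℚ) h
    push_cast at h2
    constructor <;> linarith
  · rw [h3] at h
    have h2 := congrArg (Int.cast : ℤ → ℚ) h
    push_cast at h2
    constructor <;> linarith

/-- Sum of the distances in a path. -/
def A (n : ℕ) : ℤ := ∑ i ∈ range n, ∑ j ∈ range n, |(i : ℤ) - (j : ℤ)|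

/-- Sum of the eccentricities in a path. -/
def E (n : ℕ) : ℤ := ∑ i ∈ range n, max (i : ℤ) ((n : ℤ) - 1 - i)

theorem sum_sub (n : ℕ) : 2 * ∑ j ∈ range n, |(n : ℤ) - (j : ℤ)| = n * (n + 1) := by
  have h : ∑ j ∈ range n, |(n : ℤ) - (j : ℤ)| = ∑ j ∈ range n, ((j : ℤ) + 1) := by
    rw [← sum_range_reflect]
    apply sum_congr rfl
    intro j hj
    rw [mem_range] at hj
    rw [abs_of_nonneg (by omega)]
    omega
  rw [h, mul_comm]
  have : ∀ m : ℕ, (∑ j ∈ range m, ((j : ℤ) + 1)) * 2 = m * (m + 1) := by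
    intro m
    induction m with
    | zero => simp
    | succ m ih =>
      rw [sum_range_succ, add_mul, ih]
      push_cast
      ring
  exact this n

theorem A_succ (n : ℕ) : A (n + 1) = A n + n * (n + 1) := by
  have h := sum_sub n
  unfold A
  rw [sum_range_succ]
  have h1 : ∑ i ∈ range n, ∑ j ∈ range (n + 1), |(i : ℤ) - (j : ℤ)| =
      ∑ i ∈ range n, ∑ j ∈ range n, |(i : ℤ) - (j : ℤ)| + ∑ i ∈ range n, |(i : ℤ) - (n : ℤ)| := by
    rw [← sum_add_distrib]
    apply sum_congr rfl
    intro i _
    rw [sum_range_succ]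
  have h2 : ∑ i ∈ range n, |(i : ℤ) - (n : ℤ)| = ∑ i ∈ range n, |(n : ℤ) - (i : ℤ)| := by
    apply sum_congr rfl
    intro i _
    exact abs_sub_comm _ _
  rw [h1, h2, sum_range_succ]
  simp only [sub_self, abs_zero]
  linarith

theorem E_succ (n : ℕ) : E (n + 1) = E n + (((3 * n + 1) / 2 : ℕ) : ℤ) := by
  unfold E
  rw [sum_range_succ]
  have h1 : ∑ i ∈ range n, max (i : ℤ) (((n + 1 : ℕ) : ℤ) - 1 - i) =
      ∑ i ∈ range n, (max (i : ℤ) ((n : ℤ) - 1 - i) + (if 2 * i < n then 1 else 0)) := by
    apply sum_congr rfl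
    intro i hi
    rw [mem_range] at hi
    push_cast
    split_ifs with h
    · rw [max_eq_right (by omega), max_eq_right (by omega)]
      ring
    · rw [max_eq_left (by omega), max_eq_left (by omega)]
      ring
  have h2 : ∑ i ∈ range n, (if 2 * i < n then (1 : ℤ) else 0) = (((n + 1) / 2 : ℕ) : ℤ) := by
    rw [sum_boole]
    congr 1
    have : (range n).filter (fun i => 2 * i < n) = range ((n + 1) / 2) := by
      ext i
      simp only [mem_filter, mem_range]
      omega
    rw [this, card_range]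
  rw [h1, sum_add_distrib, h2]
  push_cast
  rw [max_eq_left (by omega)]
  omega

theorem path_value (n : ℕ) : A n - 2 * E n = 2 * F n := by
  induction n with
  | zero => simp [A, E, F]
  | succ n ih =>
    have h1 := two_mul_half n
    have h1' : 2 * ((n * (n + 1) / 2 : ℕ) : ℤ) = n * (n + 1) := by exact_mod_cast h1
    have h2 : F (n + 1) = F n + ((n * (n + 1) / 2 : ℕ) : ℤ) - (((3 * n + 1) / 2 : ℕ) : ℤ) := rfl
    rw [A_succ, E_succ, h2]
    linarith

/-- Two times the sum of the distances from position `a` of a path `0, …, D`. -/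
theorem sum_dist_path (D a : ℕ) (ha : a ≤ D) :
    2 * ∑ i ∈ range (D + 1), |(i : ℤ) - (a : ℤ)| =
      a * (a + 1) + ((D : ℤ) - a) * (((D : ℤ) - a) + 1) := by
  obtain ⟨m, rfl⟩ := Nat.exists_eq_add_of_le ha
  clear ha
  induction m with
  | zero =>
    rw [Nat.add_zero, sum_range_succ]
    have h1 : ∑ i ∈ range a, |(i : ℤ) - (a : ℤ)| = ∑ i ∈ range a, |(a : ℤ) - (i : ℤ)| := by
      apply sum_congr rfl
      intro i _
      exact abs_sub_comm _ _
    have h2 := sum_sub a
    rw [h1]
    simp only [sub_self, abs_zero, add_zero, zero_mul]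
    linarith
  | succ m ih =>
    rw [show a + (m + 1) + 1 = (a + m + 1) + 1 from rfl, sum_range_succ, mul_add, ih]
    rw [abs_of_nonneg (by push_cast; omega)]
    push_cast
    ring

theorem sum_Ico (h : ℕ) : 2 * ∑ j ∈ Ico 1 h, (j : ℤ) ≤ (h : ℤ) * ((h : ℤ) - 1) := by
  induction h with
  | zero => simp
  | succ h ih =>
    rcases Nat.eq_zero_or_pos h with rfl | hpos
    · simp
    · rw [sum_Ico_succ_top (by omega)]
      push_cast
      linarith

/-! ## Part B: trees -/

section trees

variable {V : Type*} [Fintype V] [DecidableEq V] {T : SimpleGraph V}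

theorem closer_unique (hT : T.IsTree) {u v v' w : V} (h1 : T.Adj v w) (h2 : T.Adj v' w)
    (e1 : T.dist u w = T.dist u v + 1) (e2 : T.dist u w = T.dist u v' + 1) : v = v' := by
  obtain ⟨p, hp⟩ := hT.connected.exists_walk_length_eq_dist u v
  obtain ⟨q, hq⟩ := hT.connected.exists_walk_length_eq_dist u v'
  have h3 : (p.concat h1).IsPath :=
    SimpleGraph.Walk.isPath_of_length_eq_dist _ (by
      rw [SimpleGraph.Walk.length_concat, hp, e1])
  have h4 : (q.concat h2).IsPath :=
    SimpleGraph.Walk.isPath_of_length_eq_dist _ (by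
      rw [SimpleGraph.Walk.length_concat, hq, e2])
  have h5 : p.concat h1 = q.concat h2 :=
    ExistsUnique.unique (hT.existsUnique_path u w) h3 h4
  have h6 := congrArg SimpleGraph.Walk.penultimate h5
  simpa using h6

/-- The distances from `w` along a path which starts by moving away from `w`. -/
theorem ray (hT : T.IsTree) (w : V) (P : ℕ → V) (m : ℕ)
    (hadj : ∀ i, i < m → T.Adj (P i) (P (i + 1))) (hinj : ∀ i, i + 2 ≤ m → P i ≠ P (i + 2))
    (hmin : 1 ≤ m → T.dist w (P 0) ≤ T.dist w (P 1)) :
    ∀ j, j ≤ m → T.dist w (P j) = T.dist w (P 0) + j := by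
  intro j
  induction j using Nat.strong_induction_on with
  | _ j ih =>
    intro hj
    rcases j with _ | _ | j
    · simp
    · have h1 := hT.dist_eq_dist_add_one_of_adj w (hadj 0 (by omega))
      have h2 := hmin hj
      simp only [zero_add] at *
      omega
    · have h1 := ih j (by omega) (by omega)
      have h2 := ih (j + 1) (by omega) (by omega)
      have h3 := hT.dist_eq_dist_add_one_of_adj w (hadj (j + 1) (by omega))
      rcases h3 with h3 | h3
      · exfalso
        have h4 := hadj j (by omega)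
        have h5 := hadj (j + 1) (by omega)
        exact hinj j hj (closer_unique (u := w) hT h4 h5.symm (by omega) (by omega))
      · rw [show j + 1 + 1 = j + 1 + 1 from rfl] at *
        omega


/-- `P 0, …, P D` is a longest geodesic. -/
structure Diam (T : SimpleGraph V) (P : ℕ → V) (D : ℕ) : Prop where
  adj : ∀ i, i < D → T.Adj (P i) (P (i + 1))
  dist : ∀ i j, i ≤ j → j ≤ D → T.dist (P i) (P j) + i = j
  max : ∀ u v, T.dist u v ≤ D

theorem exists_diam (hT : T.Connected) : ∃ P D, Diam T P D := by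
  obtain ⟨v⟩ := hT.nonempty
  obtain ⟨⟨u0, v0⟩, _, hmax⟩ := exists_max_image (univ : Finset (V × V))
    (fun p => T.dist p.1 p.2) ⟨(v, v), mem_univ _⟩
  obtain ⟨w, hw⟩ := hT.exists_walk_length_eq_dist u0 v0
  have hub : ∀ k i, i + k ≤ w.length → T.dist (w.getVert i) (w.getVert (i + k)) ≤ k := by
    intro k
    induction k with
    | zero => intro i _; simp
    | succ k ih =>
      intro i hi
      have h1 := ih i (by omega)
      have h2 : T.dist (w.getVert (i + k)) (w.getVert (i + k + 1)) = 1 :=
        SimpleGraph.dist_eq_one_iff_adj.2 (w.adj_getVert_succ (by omega))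
      have h3 := hT.dist_triangle (u := w.getVert i) (v := w.getVert (i + k))
        (w := w.getVert (i + k + 1))
      rw [show i + (k + 1) = i + k + 1 by omega]
      omega
  refine ⟨w.getVert, T.dist u0 v0, ?_, ?_, ?_⟩
  · intro i hi
    exact w.adj_getVert_succ (by omega)
  · intro i j hij hj
    have h1 := hub (j - i) i (by omega)
    have h2 := hub i 0 (by omega)
    have h3 := hub (w.length - j) j (by omega)
    rw [show i + (j - i) = j by omega] at h1
    rw [SimpleGraph.Walk.getVert_zero, Nat.zero_add] at h2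
    rw [show j + (w.length - j) = w.length by omega, SimpleGraph.Walk.getVert_length] at h3
    have h4 := hT.dist_triangle (u := u0) (v := w.getVert i) (w := v0)
    have h5 := hT.dist_triangle (u := w.getVert i) (v := w.getVert j) (w := v0)
    omega
  · intro u v
    exact hmax (u, v) (mem_univ _)

/-- Distance to the path. -/
noncomputable def hg (T : SimpleGraph V) (P : ℕ → V) (D : ℕ) (w : V) : ℕ :=
  (range (D + 1)).inf' ⟨0, by simp⟩ (fun i => T.dist w (P i))

variable {P : ℕ → V} {D : ℕ}

theorem hg_le (w : V) {i : ℕ} (hi : i ≤ D) : hg T P D w ≤ T.dist w (P i) :=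
  inf'_le (fun i => T.dist w (P i)) (by simpa [Nat.lt_succ_iff] using hi)

theorem exists_hg (w : V) : ∃ a, a ≤ D ∧ T.dist w (P a) = hg T P D w := by
  obtain ⟨a, ha, h⟩ := exists_mem_eq_inf' (s := range (D + 1)) ⟨0, by simp⟩
    (fun i => T.dist w (P i))
  exact ⟨a, by simpa [Nat.lt_succ_iff] using ha, h.symm⟩

theorem gate (hT : T.IsTree) (hP : Diam T P D) (w : V) :
    ∃ a, a ≤ D ∧ T.dist w (P a) = hg T P D w ∧ T.dist w (P 0) = hg T P D w + a ∧
      T.dist w (P D) + a = hg T P D w + D := by
  obtain ⟨a, ha, h⟩ := exists_hg (T := T) (P := P) (D := D) w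
  refine ⟨a, ha, h, ?_, ?_⟩
  · have := ray hT w (fun i => P (a - i)) a (by
      intro i hi
      have := hP.adj (a - (i + 1)) (by omega)
      rw [show a - (i + 1) + 1 = a - i by omega] at this
      exact this.symm) (by
      intro i hi h2
      have := hP.dist (a - (i + 2)) (a - i) (by omega) (by omega)
      rw [h2, SimpleGraph.dist_self] at this
      omega) (by
      intro _
      simp only [Nat.sub_zero]
      rw [h]
      exact hg_le w (by omega)) a le_rfl
    simp only [Nat.sub_self, Nat.sub_zero] at this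
    rw [this, h]
  · have := ray hT w (fun i => P (a + i)) (D - a) (by
      intro i hi
      exact hP.adj (a + i) (by omega)) (by
      intro i hi h2
      have := hP.dist (a + i) (a + (i + 2)) (by omega) (by omega)
      rw [h2, SimpleGraph.dist_self] at this
      omega) (by
      intro _
      simp only [Nat.add_zero]
      rw [h]
      exact hg_le w (by omega)) (D - a) le_rfl
    simp only [Nat.add_zero] at this
    rw [show a + (D - a) = D by omega] at this
    omega

/-- In a tree of diameter at most six some vertex has eccentricity at most three. -/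
theorem seven_le (hT : T.IsTree) (hP : Diam T P D) (hrad : ∀ v, 4 ≤ eccOf T.dist v) : 7 ≤ D := by
  by_contra hlt
  push Not at hlt
  obtain ⟨w, hw⟩ := exists_ecc T.dist (P (D / 2))
  have h1 := hrad (P (D / 2))
  rw [← hw, SimpleGraph.dist_comm] at h1
  obtain ⟨a, ha, h2, h3, h4⟩ := gate hT hP w
  have h5 := hP.max w (P 0)
  have h6 := hP.max w (P D)
  have h7 := hT.connected.dist_triangle (u := w) (v := P a) (w := P (D / 2))
  rcases Nat.le_total a (D / 2) with h8 | h8
  · have h9 := hP.dist a (D / 2) h8 (by omega)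
    omega
  · have h9 := hP.dist (D / 2) a h8 (by omega)
    rw [SimpleGraph.dist_comm] at h9
    omega

theorem num0 {h m M n : ℤ} (h1 : 1 ≤ h) (h2 : h ≤ m) (h3 : m ≤ M) (h4 : 7 ≤ m + M)
    (hn : n = m + M + h) :
    2 * h * (m + M + 1) + M * (M + 1) + m * (m + 1) + h * (h - 1) - 2 * (h + M) <
      n ^ 2 - 2 * n - 1 := by
  subst hn
  nlinarith [mul_nonneg (sub_nonneg.2 h1) (sub_nonneg.2 h2), mul_nonneg
    (sub_nonneg.2 (h1.trans h2)) (sub_nonneg.2 h3)]

theorem num1 {h m M n t : ℤ} (h1 : 1 ≤ h) (h2 : h ≤ m) (h3 : m ≤ M) (h4 : 7 ≤ m + M)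
    (ht : 1 ≤ t) (hn : n = t + m + M + h) :
    2 * h * (m + M + 1) + M * (M + 1) + m * (m + 1) + h * (h - 1) + 2 * (t - 1) * (m + M) <
      n ^ 2 - 2 * n - 1 := by
  subst hn
  nlinarith [mul_nonneg (sub_nonneg.2 h1) (sub_nonneg.2 h2), mul_nonneg
    (sub_nonneg.2 (h1.trans h2)) (sub_nonneg.2 h3), mul_nonneg (sub_nonneg.2 h1)
    (sub_nonneg.2 ht), mul_nonneg (sub_nonneg.2 ht) (sub_nonneg.2 ht)]

/-- The set of vertices of the longest geodesic. -/
noncomputable def PS (P : ℕ → V) (D : ℕ) : Finset V := (range (D + 1)).image P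

theorem P_inj (hP : Diam T P D) {i j : ℕ} (hi : i ≤ D) (hj : j ≤ D) (h : P i = P j) : i = j := by
  rcases Nat.le_total i j with h1 | h1
  · have := hP.dist i j h1 hj
    rw [h, SimpleGraph.dist_self] at this
    omega
  · have := hP.dist j i h1 hi
    rw [h, SimpleGraph.dist_self] at this
    omega

theorem P_injOn (hP : Diam T P D) : Set.InjOn P (range (D + 1) : Finset ℕ) := by
  intro i hi j hj h
  simp only [coe_range, Set.mem_Iio] at hi hj
  exact P_inj hP (by omega) (by omega) h

theorem hg_P (i : ℕ) (hi : i ≤ D) : hg T P D (P i) = 0 := by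
  have := hg_le (T := T) (P := P) (D := D) (P i) hi
  rw [SimpleGraph.dist_self] at this
  omega

/-- Adding a vertex. -/
theorem incr (hT : T.IsTree) (hP : Diam T P D) (hD : 7 ≤ D) (S : Finset V) (hPS : PS P D ⊆ S)
    (w : V) (hw1 : 1 ≤ hg T P D w)
    (H : ∀ j, 1 ≤ j → j < hg T P D w → ∃ t ∈ S, T.dist w t = j ∧ hg T P D t + j = hg T P D w) :
    2 * (∑ u ∈ S, (T.dist w u : ℤ) - (eccOf T.dist w : ℤ)) < (#S : ℤ) ^ 2 - 2 * #S - 1 := by
  have : Nonempty V := ⟨w⟩
  obtain ⟨a, ha, h0, h1, h2⟩ := gate hT hP w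
  set h := hg T P D w with hh
  choose! f hfS hfd hfh using H
  set T1 := (Ico 1 h).image f with hT1
  have hinj : Set.InjOn f (Ico 1 h : Finset ℕ) := by
    intro i hi j hj hij
    simp only [coe_Ico, Set.mem_Ico] at hi hj
    rw [← hfd i hi.1 hi.2, ← hfd j hj.1 hj.2, hij]
  have hdisj : Disjoint (PS P D) T1 := by
    rw [disjoint_left]
    intro x hx hx1
    rw [PS, mem_image] at hx
    rw [hT1, mem_image] at hx1
    obtain ⟨i, hi, rfl⟩ := hx
    obtain ⟨j, hj, hj2⟩ := hx1
    rw [mem_range] at hi
    rw [mem_Ico] at hj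
    have h3 := hfh j hj.1 hj.2
    rw [hj2, hg_P i (by omega)] at h3
    omega
  have hT1S : T1 ⊆ S := by
    intro x hx
    rw [hT1, mem_image] at hx
    obtain ⟨j, hj, rfl⟩ := hx
    rw [mem_Ico] at hj
    exact hfS j hj.1 hj.2
  have hU : PS P D ∪ T1 ⊆ S := union_subset hPS hT1S
  have hcardPS : #(PS P D) = D + 1 := by
    rw [PS, card_image_of_injOn (P_injOn hP), card_range]
  have hcardT1 : #T1 = h - 1 := by
    rw [hT1, card_image_of_injOn hinj, Nat.card_Ico]
  have hcardU : #(PS P D ∪ T1) = D + 1 + (h - 1) := by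
    rw [card_union_of_disjoint hdisj, hcardPS, hcardT1]
  have hcard : #(S \ (PS P D ∪ T1)) + (D + h) = #S := by
    have h3 := card_sdiff_add_card_eq_card hU
    omega
  -- the three parts of the sum
  have hPsum : 2 * ∑ u ∈ PS P D, (T.dist w u : ℤ) ≤
      2 * h * (D + 1) + (a * (a + 1) + ((D : ℤ) - a) * (((D : ℤ) - a) + 1)) := by
    rw [PS, sum_image (P_injOn hP)]
    have h3 : ∑ i ∈ range (D + 1), (T.dist w (P i) : ℤ) ≤
        ∑ i ∈ range (D + 1), ((h : ℤ) + |(i : ℤ) - (a : ℤ)|) := by
      apply sum_le_sum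
      intro i hi
      rw [mem_range] at hi
      have h4 := hT.connected.dist_triangle (u := w) (v := P a) (w := P i)
      rcases Nat.le_total a i with h5 | h5
      · have h6 := hP.dist a i h5 (by omega)
        rw [abs_of_nonneg (by omega)]
        omega
      · have h6 := hP.dist i a h5 (by omega)
        rw [SimpleGraph.dist_comm] at h6
        rw [abs_of_nonpos (by omega)]
        omega
    rw [sum_add_distrib, sum_const, card_range] at h3
    have h4 := sum_dist_path D a ha
    have h5 : (D + 1) • (h : ℤ) = (D + 1) * h := by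
      rw [nsmul_eq_mul]
      push_cast
      ring
    rw [h5] at h3
    linarith
  have hTsum : 2 * ∑ u ∈ T1, (T.dist w u : ℤ) ≤ (h : ℤ) * ((h : ℤ) - 1) := by
    rw [hT1, sum_image hinj]
    have h3 : ∑ j ∈ Ico 1 h, (T.dist w (f j) : ℤ) = ∑ j ∈ Ico 1 h, (j : ℤ) := by
      apply sum_congr rfl
      intro j hj
      rw [mem_Ico] at hj
      rw [hfd j hj.1 hj.2]
    rw [h3]
    exact sum_Ico h
  have hRsum : ∑ u ∈ S \ (PS P D ∪ T1), (T.dist w u : ℤ) ≤
      (#(S \ (PS P D ∪ T1)) : ℤ) * eccOf T.dist w := by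
    have := sum_le_card_nsmul (S \ (PS P D ∪ T1)) (fun u => (T.dist w u : ℤ))
      (eccOf T.dist w : ℤ) (fun u _ => by exact_mod_cast le_ecc T.dist w u)
    rwa [nsmul_eq_mul] at this
  have hsum : ∑ u ∈ S, (T.dist w u : ℤ) = ∑ u ∈ S \ (PS P D ∪ T1), (T.dist w u : ℤ) +
      (∑ u ∈ PS P D, (T.dist w u : ℤ) + ∑ u ∈ T1, (T.dist w u : ℤ)) := by
    rw [← sum_union hdisj, sum_sdiff hU]
  -- eccentricity
  have he1 := le_ecc T.dist w (P 0)
  have he2 := le_ecc T.dist w (P D)
  have he3 : eccOf T.dist w ≤ D := by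
    obtain ⟨u, hu⟩ := exists_ecc T.dist w
    rw [← hu]
    exact hP.max w u
  set t := #(S \ (PS P D ∪ T1)) with ht
  set e := eccOf T.dist w with he
  have hha : h ≤ a := by omega
  have hhD : h ≤ D - a := by omega
  clear_value t e h
  rcases Nat.eq_zero_or_pos t with ht0 | ht0
  · have hn : (#S : ℤ) = D + h := by omega
    rw [ht0] at hRsum
    rcases Nat.le_total a (D - a) with h5 | h5
    · have h6 := num0 (h := (h : ℤ)) (m := (a : ℤ)) (M := (D : ℤ) - a) (n := (#S : ℤ))
        (by omega) (by omega) (by omega) (by omega) (by omega)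
      have h7 : (h : ℤ) + ((D : ℤ) - a) ≤ e := by omega
      simp only [Nat.cast_zero, zero_mul] at hRsum
      linarith
    · have h6 := num0 (h := (h : ℤ)) (m := (D : ℤ) - a) (M := (a : ℤ)) (n := (#S : ℤ))
        (by omega) (by omega) (by omega) (by omega) (by omega)
      have h7 : (h : ℤ) + (a : ℤ) ≤ e := by omega
      simp only [Nat.cast_zero, zero_mul] at hRsum
      linarith
  · have h8 : ((t : ℤ) - 1) * e ≤ ((t : ℤ) - 1) * D :=
      mul_le_mul_of_nonneg_left (by exact_mod_cast he3) (by omega)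
    rcases Nat.le_total a (D - a) with h5 | h5
    · have h6 := num1 (h := (h : ℤ)) (m := (a : ℤ)) (M := (D : ℤ) - a) (n := (#S : ℤ))
        (t := (t : ℤ)) (by omega) (by omega) (by omega) (by omega) (by omega) (by omega)
      linarith
    · have h6 := num1 (h := (h : ℤ)) (m := (D : ℤ) - a) (M := (a : ℤ)) (n := (#S : ℤ))
        (t := (t : ℤ)) (by omega) (by omega) (by omega) (by omega) (by omega) (by omega)
      linarith

/-- Twice `W - ε`, restricted to a set of vertices. -/
noncomputable def X (T : SimpleGraph V) (S : Finset V) : ℤ :=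
  ∑ u ∈ S, ∑ v ∈ S, (T.dist u v : ℤ) - 2 * ∑ u ∈ S, (eccOf T.dist u : ℤ)

theorem X_insert (S : Finset V) {w : V} (hw : w ∉ S) :
    X T (insert w S) = X T S + 2 * (∑ u ∈ S, (T.dist w u : ℤ) - (eccOf T.dist w : ℤ)) := by
  unfold X
  rw [sum_insert hw, sum_insert hw, sum_insert hw, SimpleGraph.dist_self]
  have h1 : ∑ u ∈ S, ∑ v ∈ insert w S, (T.dist u v : ℤ) =
      ∑ u ∈ S, (T.dist w u : ℤ) + ∑ u ∈ S, ∑ v ∈ S, (T.dist u v : ℤ) := by
    rw [← sum_add_distrib]
    apply sum_congr rfl
    intro u _
    rw [sum_insert hw, SimpleGraph.dist_comm]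
  rw [h1]
  push_cast
  ring

theorem X_PS_aux (hP : Diam T P D) :
    ∑ u ∈ PS P D, ∑ v ∈ PS P D, (T.dist u v : ℤ) = A (D + 1) := by
  unfold PS A
  rw [sum_image (P_injOn hP)]
  apply sum_congr rfl
  intro i hi
  rw [sum_image (P_injOn hP)]
  apply sum_congr rfl
  intro j hj
  rw [mem_range] at hi hj
  rcases Nat.le_total i j with h5 | h5
  · have h6 := hP.dist i j h5 (by omega)
    rw [abs_of_nonpos (by omega)]
    omega
  · have h6 := hP.dist j i h5 (by omega)
    rw [SimpleGraph.dist_comm] at h6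
    rw [abs_of_nonneg (by omega)]
    omega

theorem ecc_P_ge (hP : Diam T P D) {i : ℕ} (hi : i ≤ D) :
    max (i : ℤ) (((D + 1 : ℕ) : ℤ) - 1 - i) ≤ (eccOf T.dist (P i) : ℤ) := by
  have h1 := le_ecc T.dist (P i) (P 0)
  have h2 := le_ecc T.dist (P i) (P D)
  have h3 := hP.dist 0 i (by omega) hi
  have h4 := hP.dist i D hi le_rfl
  rw [SimpleGraph.dist_comm] at h3
  apply max_le <;> push_cast <;> omega

theorem X_PS (hP : Diam T P D) : X T (PS P D) ≤ 2 * F (D + 1) := by
  rw [← path_value]
  unfold X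
  rw [X_PS_aux hP]
  have : E (D + 1) ≤ ∑ u ∈ PS P D, (eccOf T.dist u : ℤ) := by
    unfold PS E
    rw [sum_image (P_injOn hP)]
    apply sum_le_sum
    intro i hi
    rw [mem_range] at hi
    exact ecc_P_ge hP (by omega)
  linarith

theorem X_PS_univ (hP : Diam T P D) (hu : PS P D = univ) : X T univ = 2 * F (D + 1) := by
  rw [← path_value, ← hu]
  unfold X
  rw [X_PS_aux hP]
  have : ∑ u ∈ PS P D, (eccOf T.dist u : ℤ) = E (D + 1) := by
    unfold E
    conv_lhs => rw [PS]
    rw [sum_image (P_injOn hP)]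
    apply sum_congr rfl
    intro i hi
    rw [mem_range] at hi
    apply le_antisymm _ (ecc_P_ge hP (by omega))
    obtain ⟨u, hu2⟩ := exists_ecc T.dist (P i)
    rw [← hu2]
    have h1 : u ∈ PS P D := by rw [hu]; exact mem_univ u
    rw [PS, mem_image] at h1
    obtain ⟨j, hj, rfl⟩ := h1
    rw [mem_range] at hj
    rcases Nat.le_total i j with h5 | h5
    · have h6 := hP.dist i j h5 (by omega)
      apply le_max_of_le_right
      push_cast
      omega
    · have h6 := hP.dist j i h5 (by omega)
      rw [SimpleGraph.dist_comm] at h6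
      apply le_max_of_le_left
      omega
  linarith

theorem card_PS (hP : Diam T P D) : #(PS P D) = D + 1 := by
  rw [PS, card_image_of_injOn (P_injOn hP), card_range]

theorem hg_eq_zero (hT : T.Connected) {w : V} (h : hg T P D w = 0) : w ∈ PS P D := by
  obtain ⟨a, ha, h1⟩ := exists_hg (T := T) (P := P) (D := D) w
  rw [h, hT.dist_eq_zero_iff] at h1
  rw [PS, mem_image]
  exact ⟨a, by rw [mem_range]; omega, h1.symm⟩

theorem grow (hT : T.IsTree) (hP : Diam T P D) (hD : 7 ≤ D) : ∀ (k : ℕ) (S : Finset V),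
    #S = k → PS P D ⊆ S →
    (∀ s ∈ S, ∀ j, j ≤ hg T P D s → ∃ t ∈ S, T.dist s t = j ∧ hg T P D t + j = hg T P D s) →
    X T S ≤ 2 * F k ∧ (S ≠ PS P D → X T S < 2 * F k) := by
  intro k
  induction k with
  | zero =>
    intro S hS hPS _
    rw [card_eq_zero] at hS
    rw [hS] at hPS
    have := card_le_card hPS
    rw [card_PS hP] at this
    simp at this
  | succ k ih =>
    intro S hS hPS hQ
    by_cases hSP : S = PS P D
    · refine ⟨?_, fun h => absurd hSP h⟩
      have := card_PS hP
      rw [← hSP, hS] at this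
      rw [hSP, this]
      exact X_PS hP
    · have hne : (S \ PS P D).Nonempty := by
        rw [sdiff_nonempty]
        intro h
        exact hSP (subset_antisymm h hPS)
      obtain ⟨w, hw, hmax⟩ := exists_max_image (S \ PS P D) (hg T P D) hne
      rw [mem_sdiff] at hw
      have hw1 : 1 ≤ hg T P D w := by
        by_contra h
        exact hw.2 (hg_eq_zero hT.connected (by omega))
      have hcard : #(S.erase w) = k := by
        rw [card_erase_of_mem hw.1, hS]
        rfl
      have hPS' : PS P D ⊆ S.erase w := by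
        intro x hx
        rw [mem_erase]
        exact ⟨fun h => hw.2 (h ▸ hx), hPS hx⟩
      have h1 := (ih (S.erase w) hcard hPS' (by
        intro s hs j hj
        rw [mem_erase] at hs
        obtain ⟨t, ht1, ht2, ht3⟩ := hQ s hs.2 j hj
        refine ⟨t, ?_, ht2, ht3⟩
        rw [mem_erase]
        refine ⟨?_, ht1⟩
        rintro rfl
        by_cases hsP : s ∈ PS P D
        · rw [PS, mem_image] at hsP
          obtain ⟨i, hi, rfl⟩ := hsP
          rw [mem_range] at hi
          rw [hg_P i (by omega)] at ht3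
          omega
        · have := hmax s (mem_sdiff.2 ⟨hs.2, hsP⟩)
          have hj0 : j = 0 := by omega
          rw [hj0, hT.connected.dist_eq_zero_iff] at ht2
          exact hs.1 ht2)).1
      have h2 := incr hT hP hD (S.erase w) hPS' w hw1 (by
        intro j hj1 hj2
        obtain ⟨t, ht1, ht2, ht3⟩ := hQ w hw.1 j hj2.le
        refine ⟨t, ?_, ht2, ht3⟩
        rw [mem_erase]
        refine ⟨?_, ht1⟩
        rintro rfl
        rw [SimpleGraph.dist_self] at ht2
        omega)
      have h3 := X_insert (T := T) (S.erase w) (notMem_erase w S)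
      rw [insert_erase hw.1] at h3
      rw [hcard] at h2
      have h4 : F (k + 1) = F k + ((k * (k + 1) / 2 : ℕ) : ℤ) - (((3 * k + 1) / 2 : ℕ) : ℤ) := rfl
      have h5 := two_mul_half k
      have h5' : 2 * ((k * (k + 1) / 2 : ℕ) : ℤ) = k * (k + 1) := by exact_mod_cast h5
      have h6 : 2 * (((3 * k + 1) / 2 : ℕ) : ℤ) ≤ 3 * k + 1 := by
        have : 2 * ((3 * k + 1) / 2) ≤ 3 * k + 1 := Nat.mul_div_le _ _
        exact_mod_cast this
      have h7 : X T S < 2 * F (k + 1) := by
        rw [h3, h4]
        linarith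
      exact ⟨h7.le, fun _ => h7⟩

/-- If the longest geodesic contains all vertices, the graph is a path. -/
theorem iso_of_univ (hP : Diam T P D) (hu : PS P D = univ) :
    Nonempty (T ≃g SimpleGraph.pathGraph (Fintype.card V)) := by
  have hcard : Fintype.card V = D + 1 := by
    rw [← card_univ, ← hu, card_PS hP]
  rw [hcard]
  have hbij : Function.Bijective (fun i : Fin (D + 1) => P i) := by
    rw [Fintype.bijective_iff_injective_and_card]
    refine ⟨?_, by rw [Fintype.card_fin, hcard]⟩
    intro i j hij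
    exact Fin.ext (P_inj hP (by omega) (by omega) hij)
  refine ⟨(RelIso.symm ⟨Equiv.ofBijective _ hbij, ?_⟩)⟩
  intro i j
  rw [SimpleGraph.pathGraph_adj, ← SimpleGraph.dist_eq_one_iff_adj]
  simp only [Equiv.ofBijective_apply]
  rcases Nat.le_total i j with h5 | h5
  · have h6 := hP.dist i j h5 (by omega)
    omega
  · have h6 := hP.dist j i h5 (by omega)
    rw [SimpleGraph.dist_comm] at h6
    omega

theorem tree_case (hT : T.IsTree) (hrad : ∀ v, 4 ≤ eccOf T.dist v) :
    X T univ ≤ 2 * F (Fintype.card V) ∧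
      (X T univ = 2 * F (Fintype.card V) →
        Nonempty (T ≃g SimpleGraph.pathGraph (Fintype.card V))) := by
  obtain ⟨P, D, hP⟩ := exists_diam hT.connected
  have hD := seven_le hT hP hrad
  have h := grow hT hP hD (Fintype.card V) univ card_univ (subset_univ _) (by
    intro s _ j hj
    obtain ⟨a, ha, h1⟩ := exists_hg (T := T) (P := P) (D := D) s
    obtain ⟨t, ht1, ht2⟩ := geo_exists hT.connected s (P a) j (by omega)
    refine ⟨t, mem_univ _, ht1, ?_⟩
    have h2 := hg_le (T := T) (P := P) (D := D) t ha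
    obtain ⟨b, hb, h3⟩ := exists_hg (T := T) (P := P) (D := D) t
    have h4 := hg_le (T := T) (P := P) (D := D) s hb
    have h5 := hT.connected.dist_triangle (u := s) (v := t) (w := P b)
    omega)
  refine ⟨h.1, fun heq => ?_⟩
  apply iso_of_univ hP
  by_contra hne
  have := h.2 (fun h => hne h.symm)
  omega

theorem ecc_mono {G H : SimpleGraph V} (hH : H.Connected) (hle : H ≤ G) (v : V) :
    eccOf G.dist v ≤ eccOf H.dist v := by
  obtain ⟨u, hu⟩ := exists_ecc G.dist v
  rw [← hu]
  exact ((hH.preconnected v u).dist_anti hle).trans (le_ecc H.dist v u)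

theorem general (G : SimpleGraph V) : G.Connected → (∀ v, 4 ≤ eccOf G.dist v) →
    X G univ ≤ 2 * F (Fintype.card V) ∧
      (X G univ = 2 * F (Fintype.card V) →
        Nonempty (G ≃g SimpleGraph.pathGraph (Fintype.card V))) := by
  induction G using WellFoundedLT.induction with
  | _ G ih =>
    intro hG hrad
    by_cases hac : G.IsAcyclic
    · exact tree_case ⟨hG, hac⟩ hrad
    · rw [SimpleGraph.isAcyclic_iff_forall_isBridge] at hac
      push Not at hac
      obtain ⟨e, he, hb⟩ := hac
      induction e using Sym2.ind with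
      | _ x y =>
        rw [SimpleGraph.mem_edgeSet] at he
        have hH := hG.connected_delete_edge_of_not_isBridge hb
        have hlt : G.deleteEdges {s(x, y)} < G := by
          refine lt_of_le_of_ne (SimpleGraph.deleteEdges_le _) ?_
          intro h
          have : (G.deleteEdges {s(x, y)}).Adj x y := by rw [h]; exact he
          simp at this
        have h1 := (ih _ hlt hH (fun v => (hrad v).trans (ecc_mono hH hlt.le v))).1
        have h2 := deleteEdge hG he hH hrad
        have h3 : X G univ + 2 ≤ X (G.deleteEdges {s(x, y)}) univ := by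
          unfold X
          have h4 : ((∑ v, ∑ w, G.dist v w + 2 * ∑ v, eccOf (G.deleteEdges {s(x, y)}).dist v + 2 :
            ℕ) : ℤ) ≤ ((∑ v, ∑ w, (G.deleteEdges {s(x, y)}).dist v w +
              2 * ∑ v, eccOf G.dist v : ℕ) : ℤ) := by exact_mod_cast h2
          push_cast at h4
          linarith
        refine ⟨by linarith, fun h => by exfalso; linarith⟩

/-- A path graph has a longest geodesic through all vertices. -/
theorem diam_of_iso {G : SimpleGraph V} (hG : G.Connected)
    (e : G ≃g SimpleGraph.pathGraph (D + 1)) :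
    ∃ P : ℕ → V, Diam G P D ∧ PS P D = univ := by
  have hidx : ∀ {u v : V} (p : G.Walk u v), |((e u : ℕ) : ℤ) - ((e v : ℕ) : ℤ)| ≤ p.length := by
    intro u v p
    induction p with
    | nil => simp
    | @cons u u' v hadj q ih =>
      have h1 : (SimpleGraph.pathGraph (D + 1)).Adj (e u) (e u') := e.map_rel_iff.2 hadj
      rw [SimpleGraph.pathGraph_adj] at h1
      rw [SimpleGraph.Walk.length_cons]
      push_cast
      rw [abs_le] at *
      omega
  have hlow : ∀ u v : V, |((e u : ℕ) : ℤ) - ((e v : ℕ) : ℤ)| ≤ G.dist u v := by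
    intro u v
    obtain ⟨p, hp⟩ := hG.exists_walk_length_eq_dist u v
    rw [← hp]
    exact hidx p
  let P : ℕ → V := fun i => e.symm (Fin.ofNat (D + 1) i)
  have heP : ∀ i, i ≤ D → ((e (P i) : Fin (D + 1)) : ℕ) = i := by
    intro i hi
    simp only [P, RelIso.apply_symm_apply]
    exact Nat.mod_eq_of_lt (by omega)
  have hadj : ∀ i, i < D → G.Adj (P i) (P (i + 1)) := by
    intro i hi
    rw [← e.map_adj_iff, SimpleGraph.pathGraph_adj]
    left
    rw [heP i hi.le, heP (i + 1) hi]
  have hup : ∀ k i, i + k ≤ D → G.dist (P i) (P (i + k)) ≤ k := by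
    intro k
    induction k with
    | zero => intro i _; simp
    | succ k ih =>
      intro i hi
      have h1 := ih i (by omega)
      have h2 : G.dist (P (i + k)) (P (i + k + 1)) = 1 :=
        SimpleGraph.dist_eq_one_iff_adj.2 (hadj _ (by omega))
      have h3 := hG.dist_triangle (u := P i) (v := P (i + k)) (w := P (i + k + 1))
      rw [show i + (k + 1) = i + k + 1 by omega]
      omega
  have hdist : ∀ i j, i ≤ j → j ≤ D → G.dist (P i) (P j) + i = j := by
    intro i j hij hj
    have h1 := hup (j - i) i (by omega)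
    rw [show i + (j - i) = j by omega] at h1
    have h2 := hlow (P i) (P j)
    rw [heP i (by omega), heP j hj, abs_le] at h2
    omega
  have hsurj : ∀ v, ∃ i, i ≤ D ∧ P i = v := by
    intro v
    refine ⟨(e v : ℕ), by omega, ?_⟩
    simp only [P]
    rw [RelIso.symm_apply_eq]
    apply Fin.ext
    exact Nat.mod_eq_of_lt (e v).2
  refine ⟨P, ⟨hadj, hdist, ?_⟩, ?_⟩
  · intro u v
    obtain ⟨i, hi, rfl⟩ := hsurj u
    obtain ⟨j, hj, rfl⟩ := hsurj v
    rcases Nat.le_total i j with h5 | h5
    · have h6 := hdist i j h5 hj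
      omega
    · have h6 := hdist j i h5 hi
      rw [SimpleGraph.dist_comm] at h6
      omega
  · rw [eq_univ_iff_forall]
    intro v
    obtain ⟨i, hi, h⟩ := hsurj v
    rw [PS, mem_image]
    exact ⟨i, by rw [mem_range]; omega, h⟩

end trees

/-! ## The result -/

section result

variable {V : Type} [Fintype V]

/-- The eccentricity of a vertex: the largest distance from it. -/
noncomputable def ecc (G : SimpleGraph V) (v : V) : ℕ := univ.sup (fun u => G.dist v u)

/-- The Wiener index: half the sum of the distances over all ordered pairs. -/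
noncomputable def wiener (G : SimpleGraph V) : ℚ := (∑ u, ∑ v, (G.dist u v : ℚ)) / 2

/-- The total eccentricity. -/
noncomputable def totalEcc (G : SimpleGraph V) : ℚ := ∑ v, (ecc G v : ℚ)

end result

theorem X_eq {V : Type} [Fintype V] (G : SimpleGraph V) :
    (X G univ : ℚ) = 2 * (wiener G - totalEcc G) := by
  unfold X wiener totalEcc ecc eccOf
  push_cast
  ring

/-- **Wiener index minus total eccentricity.**  For every connected graph `G` of order `n` and
radius at least four, `W(G) - ε(G) ≤ ⌊n³/6 - 3n²/4 + n/3 + 1/4⌋`, with equality if and only if `G`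
is a path. -/
theorem result : ∀ (V : Type) [Fintype V] (G : SimpleGraph V) (n : ℕ), Fintype.card V = n →
    G.Connected → (∀ v, 4 ≤ ecc G v) →
    wiener G - totalEcc G ≤
      (⌊(n : ℚ) ^ 3 / 6 - 3 / 4 * (n : ℚ) ^ 2 + (n : ℚ) / 3 + 1 / 4⌋ : ℤ) ∧
    (wiener G - totalEcc G =
      (⌊(n : ℚ) ^ 3 / 6 - 3 / 4 * (n : ℚ) ^ 2 + (n : ℚ) / 3 + 1 / 4⌋ : ℤ) ↔
      Nonempty (G ≃g SimpleGraph.pathGraph n)) := by
  classical
  intro V _ G n hn hG hrad
  subst hn
  rw [F_floor]
  have hX := X_eq G
  obtain ⟨h1, h2⟩ := general G hG hrad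
  have h1' : (X G univ : ℚ) ≤ ((2 * F (Fintype.card V) : ℤ) : ℚ) := by exact_mod_cast h1
  push_cast at h1'
  refine ⟨by linarith, ?_, ?_⟩
  · intro h
    apply h2
    have h3 : (X G univ : ℚ) = ((2 * F (Fintype.card V) : ℤ) : ℚ) := by
      push_cast
      rw [hX, h]
    exact_mod_cast h3
  · rintro ⟨e⟩
    have hpos : 0 < Fintype.card V := Fintype.card_pos_iff.2 hG.nonempty
    obtain ⟨D, hD⟩ : ∃ D, Fintype.card V = D + 1 := ⟨Fintype.card V - 1, by omega⟩
    rw [hD] at e
    obtain ⟨P, hP, hu⟩ := diam_of_iso hG e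
    have h3 := X_PS_univ hP hu
    rw [hD]
    have h4 : (X G univ : ℚ) = ((2 * F (D + 1) : ℤ) : ℚ) := by exact_mod_cast h3
    push_cast at h4
    linarith

end Pool.Agent.Results.MP_4bd310_co.WienerMinusEccentricity
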